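import Mathlib

/-!
# MP_26bbbf_al, Q1 disproved

The Leavitt algebra `L_k(1,2)` with its canonical `ℤ`-grading is strongly graded and controlled, but
its component of degree one contains no unit.
-/

namespace Pool.Agent.Results.MP_26bbbf_al.LeavittControlled

section defs

variable {G : Type} [Group G] {R : Type} [Ring R]

/-- `𝒜` is a strong `G`-grading of `R`: `R` is the (internal) direct sum of the additive subgroups
`𝒜 g`, and `R_g R_h = R_{gh}`, where the left side is the set of finite sums of products. -/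
structure IsStrongGrading (𝒜 : G → AddSubgroup R) : Prop where
  indep : iSupIndep 𝒜
  top : ⨆ g, 𝒜 g = ⊤
  mul : ∀ g h, AddSubgroup.closure {z | ∃ x ∈ 𝒜 g, ∃ y ∈ 𝒜 h, z = x * y} = 𝒜 (g * h)

/-- `B` is an `R_e`-sub-bimodule of `R`. -/
def IsSubBimodule (𝒜 : G → AddSubgroup R) (B : AddSubgroup R) : Prop :=
  ∀ a ∈ 𝒜 1, ∀ v ∈ B, a * v ∈ B ∧ v * a ∈ B

/-- `B` and `C` are isomorphic as `R_e`-bimodules. -/
def BimoduleIso (𝒜 : G → AddSubgroup R) (B C : AddSubgroup R) : Prop :=
  ∃ f : B ≃+ C, ∀ a ∈ 𝒜 1, ∀ v w : B,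
    ((w : R) = a * v → (f w : R) = a * f v) ∧ ((w : R) = v * a → (f w : R) = f v * a)

/-- `R_H = ⊕_{h ∈ H} R_h`. -/
def comp (𝒜 : G → AddSubgroup R) (H : Set G) : AddSubgroup R := ⨆ h : H, 𝒜 h

/-- `R` is `G`-controlled. -/
def IsControlled (𝒜 : G → AddSubgroup R) : Prop :=
  Set.BijOn (comp 𝒜) Set.univ {B | IsSubBimodule 𝒜 B} ∧
    ∀ S T : Set G, BimoduleIso 𝒜 (comp 𝒜 S) (comp 𝒜 T) → S = T

/-- `R` is a `G`-crossed product. -/
def IsCrossedProduct (𝒜 : G → AddSubgroup R) : Prop :=
  ∀ g, ∃ u : Rˣ, (u : R) ∈ 𝒜 g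

end defs

section leavitt

variable {k : Type} [Field k] {R : Type} [Ring R] [Algebra k R] (x y : Fin 2 → R)

/-- product of `x`'s along a word -/
def xw : List (Fin 2) → R
  | [] => 1
  | i :: u => x i * xw u

/-- product of `y`'s along the reversed word -/
def yw : List (Fin 2) → R
  | [] => 1
  | i :: u => yw u * y i

/-- the defining relations -/
structure Rels : Prop where
  yx : ∀ i j, y i * x j = if i = j then 1 else 0
  sum : x 0 * y 0 + x 1 * y 1 = 1

variable {x y}

lemma xw_append (u v : List (Fin 2)) : xw x (u ++ v) = xw x u * xw x v := by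
  induction u with
  | nil => simp [xw]
  | cons i u ih => simp [xw, ih, mul_assoc]

lemma yw_append (u v : List (Fin 2)) : yw y (u ++ v) = yw y v * yw y u := by
  induction u with
  | nil => simp [yw]
  | cons i u ih => simp [yw, ih, mul_assoc]

lemma yx_cons (h : Rels x y) (i j : Fin 2) (u v : List (Fin 2)) :
    yw y (i :: u) * xw x (j :: v) = if i = j then yw y u * xw x v else 0 := by
  have : yw y (i :: u) * xw x (j :: v) = yw y u * (y i * x j) * xw x v := by
    simp only [yw, xw, mul_assoc]
  rw [this, h.yx]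
  split_ifs <;> simp

lemma yx_self (h : Rels x y) (u : List (Fin 2)) : yw y u * xw x u = 1 := by
  induction u with
  | nil => simp [xw, yw]
  | cons i u ih => rw [yx_cons h, if_pos rfl, ih]

lemma yx_zero (h : Rels x y) (u v : List (Fin 2)) (h1 : ¬ u <+: v) (h2 : ¬ v <+: u) :
    yw y u * xw x v = 0 := by
  induction u generalizing v with
  | nil => exact absurd List.nil_prefix h1
  | cons i u ih =>
    cases v with
    | nil => exact absurd List.nil_prefix h2
    | cons j v =>
      rw [yx_cons h]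
      split_ifs with hij
      · subst hij
        apply ih
        · intro h3; exact h1 (List.prefix_cons_inj _ |>.2 h3)
        · intro h3; exact h2 (List.prefix_cons_inj _ |>.2 h3)
      · rfl

lemma yx_len (h : Rels x y) (u v : List (Fin 2)) (hl : u.length = v.length) :
    yw y u * xw x v = if u = v then 1 else 0 := by
  split_ifs with huv
  · rw [huv, yx_self h]
  · apply yx_zero h
    · intro h3; exact huv (h3.eq_of_length hl)
    · intro h3; exact huv (h3.eq_of_length hl.symm).symm

/-- the separating word `0^L 1` -/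
def gw (L : ℕ) : List (Fin 2) := List.replicate L 0 ++ [1]

lemma gw_length (L : ℕ) : (gw L).length = L + 1 := by simp [gw]

lemma not_prefix {a a' : List (Fin 2)} {L : ℕ} (h1 : a.length < a'.length)
    (h2 : a'.length ≤ a.length + L) : ¬ (a ++ gw L) <+: (a' ++ gw L) := by
  intro h
  have e1 : (a ++ gw L)[a.length + L]? = some 1 := by
    rw [List.getElem?_append_right (by omega)]
    simp [gw]
  have e2 : (a' ++ gw L)[a.length + L]? = some 0 := by
    rw [List.getElem?_append_right (by omega)]
    rw [gw, List.getElem?_append_left (by simp; omega), List.getElem?_replicate]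
    rw [if_pos (by omega)]
  obtain ⟨t, ht⟩ := h
  have e3 : (a' ++ gw L)[a.length + L]? = some 1 := by
    rw [← ht, List.getElem?_append_left (by simp [gw_length]), e1]
  rw [e2] at e3
  simp at e3

lemma separate (h : Rels x y) {a a' : List (Fin 2)} {L : ℕ} (h0 : a.length ≠ a'.length)
    (h1 : a.length ≤ a'.length + L) (h2 : a'.length ≤ a.length + L) :
    yw y (a ++ gw L) * xw x (a' ++ gw L) = 0 := by
  have hlen1 : (a ++ gw L).length = a.length + (L + 1) := by rw [List.length_append, gw_length]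
  have hlen2 : (a' ++ gw L).length = a'.length + (L + 1) := by rw [List.length_append, gw_length]
  apply yx_zero h
  · rcases lt_or_gt_of_ne h0 with h3 | h3
    · exact not_prefix h3 h2
    · intro h4
      have := h4.length_le
      omega
  · rcases lt_or_gt_of_ne h0 with h3 | h3
    · intro h4
      have := h4.length_le
      omega
    · exact not_prefix h3 h1

lemma left_zero (h : Rels x y) (n : ℕ) (w : R) (hw : ∀ a, a.length = n → yw y a * w = 0) :
    w = 0 := by
  induction n with
  | zero => simpa [yw] using hw [] rfl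
  | succ n ih =>
    apply ih
    intro a ha
    have h0 := hw (a ++ [0]) (by simp [ha])
    have h1 := hw (a ++ [1]) (by simp [ha])
    rw [yw_append] at h0 h1
    simp only [yw, one_mul] at h0 h1
    calc yw y a * w = (x 0 * y 0 + x 1 * y 1) * (yw y a * w) := by rw [h.sum, one_mul]
      _ = x 0 * (y 0 * yw y a * w) + x 1 * (y 1 * yw y a * w) := by noncomm_ring
      _ = 0 := by rw [h0, h1]; simp

lemma right_zero (h : Rels x y) (n : ℕ) (w : R) (hw : ∀ b, b.length = n → w * xw x b = 0) :
    w = 0 := by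
  induction n with
  | zero => simpa [xw] using hw [] rfl
  | succ n ih =>
    apply ih
    intro a ha
    have h0 := hw (a ++ [0]) (by simp [ha])
    have h1 := hw (a ++ [1]) (by simp [ha])
    rw [xw_append] at h0 h1
    simp only [xw, mul_one] at h0 h1
    calc w * xw x a = (w * xw x a) * (x 0 * y 0 + x 1 * y 1) := by rw [h.sum, mul_one]
      _ = (w * (xw x a * x 0)) * y 0 + (w * (xw x a * x 1)) * y 1 := by noncomm_ring
      _ = 0 := by rw [h0, h1]; simp

variable (k x y)

/-- span of the `x_a y_b` with `|a| = p`, `|b| = r` -/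
def Lev (p r : ℕ) : Submodule k R :=
  Submodule.span k {z | ∃ a b : List (Fin 2), a.length = p ∧ b.length = r ∧ z = xw x a * yw y b}

variable {k x y}

lemma mem_lev {p r : ℕ} {a b : List (Fin 2)} (ha : a.length = p) (hb : b.length = r) :
    xw x a * yw y b ∈ Lev k x y p r := Submodule.subset_span ⟨a, b, ha, hb, rfl⟩

lemma lev_coef (h : Rels x y) {p r : ℕ} {w : R} (hw : w ∈ Lev k x y p r) {a b : List (Fin 2)}
    (ha : a.length = p) (hb : b.length = r) : ∃ c : k, yw y a * w * xw x b = c • (1 : R) := by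
  induction hw using Submodule.span_induction with
  | mem w hw =>
    obtain ⟨a', b', ha', hb', rfl⟩ := hw
    have : yw y a * (xw x a' * yw y b') * xw x b =
        (yw y a * xw x a') * (yw y b' * xw x b) := by noncomm_ring
    rw [this, yx_len h _ _ (ha.trans ha'.symm), yx_len h _ _ (hb'.trans hb.symm)]
    split_ifs
    · exact ⟨1, by simp⟩
    · exact ⟨0, by simp⟩
    · exact ⟨0, by simp⟩
    · exact ⟨0, by simp⟩
  | zero => exact ⟨0, by simp⟩
  | add w w' _ _ h1 h2 =>
    obtain ⟨c, hc⟩ := h1
    obtain ⟨d, hd⟩ := h2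
    exact ⟨c + d, by rw [add_smul, ← hc, ← hd]; noncomm_ring⟩
  | smul e w _ h1 =>
    obtain ⟨c, hc⟩ := h1
    refine ⟨e * c, ?_⟩
    rw [mul_smul, ← hc, mul_smul_comm, smul_mul_assoc]

lemma lev_succ (h : Rels x y) (p r : ℕ) : Lev k x y p r ≤ Lev k x y (p + 1) (r + 1) := by
  apply Submodule.span_le.2
  rintro _ ⟨a, b, ha, hb, rfl⟩
  have : xw x a * yw y b = xw x (a ++ [0]) * yw y (b ++ [0]) +
      xw x (a ++ [1]) * yw y (b ++ [1]) := by
    rw [xw_append, xw_append, yw_append, yw_append]
    simp only [xw, yw, mul_one, one_mul]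
    calc xw x a * yw y b = xw x a * (x 0 * y 0 + x 1 * y 1) * yw y b := by rw [h.sum, mul_one]
      _ = _ := by noncomm_ring
  rw [this]
  exact Submodule.add_mem _ (mem_lev (by simp [ha]) (by simp [hb]))
    (mem_lev (by simp [ha]) (by simp [hb]))

lemma lev_add (h : Rels x y) (p r t : ℕ) : Lev k x y p r ≤ Lev k x y (p + t) (r + t) := by
  induction t with
  | zero => exact le_rfl
  | succ t ih => exact ih.trans (lev_succ h _ _)

lemma lev_le (h : Rels x y) {p r p' r' : ℕ} (h1 : (p : ℤ) - r = p' - r') (h2 : p ≤ p') :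
    Lev k x y p r ≤ Lev k x y p' r' := by
  obtain ⟨t, rfl⟩ := Nat.exists_eq_add_of_le h2
  have : r' = r + t := by omega
  subst this
  exact lev_add h p r t

variable (k)

/-- the component of degree `n` -/
def Deg (h : Rels x y) (n : ℤ) : Submodule k R where
  carrier := {w | ∃ p r : ℕ, (p : ℤ) - r = n ∧ w ∈ Lev k x y p r}
  zero_mem' := by
    rcases le_total 0 n with hn | hn
    · exact ⟨n.toNat, 0, by omega, Submodule.zero_mem _⟩
    · exact ⟨0, (-n).toNat, by omega, Submodule.zero_mem _⟩
  add_mem' := by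
    rintro w w' ⟨p, r, h1, h2⟩ ⟨p', r', h1', h2'⟩
    rcases le_total p p' with hp | hp
    · exact ⟨p', r', h1', Submodule.add_mem _ (lev_le h (by omega) hp h2) h2'⟩
    · exact ⟨p, r, h1, Submodule.add_mem _ h2 (lev_le h (by omega) hp h2')⟩
  smul_mem' := by
    rintro c w ⟨p, r, h1, h2⟩
    exact ⟨p, r, h1, Submodule.smul_mem _ c h2⟩

variable {k}

lemma mem_deg {h : Rels x y} {n : ℤ} {w : R} : w ∈ Deg k h n ↔
    ∃ p r : ℕ, (p : ℤ) - r = n ∧ w ∈ Lev k x y p r := Iff.rfl

/-- all high levels contain a given homogeneous element -/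
lemma deg_level {h : Rels x y} {n : ℤ} {w : R} (hw : w ∈ Deg k h n) :
    ∃ N : ℕ, ∀ p r : ℕ, (p : ℤ) - r = n → N ≤ r → w ∈ Lev k x y p r := by
  obtain ⟨p, r, h1, h2⟩ := hw
  exact ⟨r, fun p' r' h1' hr => lev_le h (by omega) (by omega) h2⟩

lemma lev_mul (h : Rels x y) {p r q : ℕ} {w w' : R} (hw : w ∈ Lev k x y p r)
    (hw' : w' ∈ Lev k x y r q) : w * w' ∈ Lev k x y p q := by
  induction hw using Submodule.span_induction with
  | mem w hw =>
    obtain ⟨a, b, ha, hb, rfl⟩ := hw
    induction hw' using Submodule.span_induction with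
    | mem w' hw' =>
      obtain ⟨a', b', ha', hb', rfl⟩ := hw'
      have : xw x a * yw y b * (xw x a' * yw y b') = xw x a * (yw y b * xw x a') * yw y b' := by
        noncomm_ring
      rw [this, yx_len h _ _ (hb.trans ha'.symm)]
      split_ifs
      · rw [mul_one]; exact mem_lev ha hb'
      · simp
    | zero => simp
    | add u v _ _ h1 h2 => rw [mul_add]; exact Submodule.add_mem _ h1 h2
    | smul e u _ h1 => rw [mul_smul_comm]; exact Submodule.smul_mem _ _ h1
  | zero => simp
  | add u v _ _ h1 h2 => rw [add_mul]; exact Submodule.add_mem _ h1 h2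
  | smul e u _ h1 => rw [smul_mul_assoc]; exact Submodule.smul_mem _ _ h1

lemma deg_mul {h : Rels x y} {n m : ℤ} {w w' : R} (hw : w ∈ Deg k h n) (hw' : w' ∈ Deg k h m) :
    w * w' ∈ Deg k h (n + m) := by
  obtain ⟨p, r, h1, h2⟩ := hw
  obtain ⟨r', q, h1', h2'⟩ := hw'
  rcases le_total r r' with hr | hr
  · obtain ⟨t, rfl⟩ := Nat.exists_eq_add_of_le hr
    exact ⟨p + t, q, by (push_cast at *; omega), lev_mul h (lev_add h p r t h2) h2'⟩
  · obtain ⟨t, rfl⟩ := Nat.exists_eq_add_of_le hr
    exact ⟨p, q + t, by (push_cast at *; omega), lev_mul h h2 (lev_add h r' q t h2')⟩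

lemma one_deg (h : Rels x y) : (1 : R) ∈ Deg k h 0 :=
  ⟨0, 0, by simp, by
    have := mem_lev (k := k) (x := x) (y := y) (a := []) (b := []) (p := 0) (r := 0) rfl rfl
    simpa [xw, yw] using this⟩

/-- the element `v` is killed between high words of degree `n` -/
def Killed (x y : Fin 2 → R) (n : ℤ) (v : R) : Prop :=
  ∃ N : ℕ, ∀ (L : ℕ) (a b : List (Fin 2)), N ≤ L → N ≤ b.length →
    (a.length : ℤ) - b.length = n → yw y (a ++ gw L) * v * xw x (b ++ gw L) = 0

lemma killed_zero (n : ℤ) : Killed x y n 0 := ⟨0, fun _ _ _ _ _ _ => by simp⟩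

lemma killed_add {n : ℤ} {v w : R} (hv : Killed x y n v) (hw : Killed x y n w) :
    Killed x y n (v + w) := by
  obtain ⟨N, hN⟩ := hv
  obtain ⟨M, hM⟩ := hw
  refine ⟨max N M, fun L a b h1 h2 h3 => ?_⟩
  rw [mul_add, add_mul, hN L a b (by omega) (by omega) h3, hM L a b (by omega) (by omega) h3,
    add_zero]

lemma killed_neg {n : ℤ} {v : R} (hv : Killed x y n v) : Killed x y n (-v) := by
  obtain ⟨N, hN⟩ := hv
  refine ⟨N, fun L a b h1 h2 h3 => ?_⟩
  rw [mul_neg, neg_mul, hN L a b h1 h2 h3, neg_zero]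

lemma killed_deg (h : Rels x y) {n m : ℤ} (hnm : m ≠ n) {v : R} (hv : v ∈ Deg k h m) :
    Killed x y n v := by
  obtain ⟨N, hN⟩ := deg_level hv
  refine ⟨N + (m - n).natAbs + m.natAbs, fun L a b h1 h2 h3 => ?_⟩
  have hmem := hN (b.length + m).toNat b.length (by omega) (by omega)
  have key : ∀ v ∈ Lev k x y (b.length + m).toNat b.length,
      yw y (a ++ gw L) * v * xw x (b ++ gw L) = 0 := by
    intro v hv
    induction hv using Submodule.span_induction with
    | mem v hv =>
      obtain ⟨a', b', ha', hb', rfl⟩ := hv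
      rw [xw_append b]
      have : yw y (a ++ gw L) * (xw x a' * yw y b') * (xw x b * xw x (gw L)) =
          yw y (a ++ gw L) * xw x a' * (yw y b' * xw x b) * xw x (gw L) := by noncomm_ring
      rw [this, yx_len h _ _ hb']
      split_ifs
      · rw [mul_one, mul_assoc, ← xw_append]
        apply separate h <;> omega
      · simp
    | zero => simp
    | add u v _ _ h1 h2 => rw [mul_add, add_mul, h1, h2, add_zero]
    | smul e u _ h1 => rw [mul_smul_comm, smul_mul_assoc, h1, smul_zero]
  exact key v hmem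

/-- extraction of a nonzero coefficient -/
lemma extract (h : Rels x y) {n : ℤ} {w v : R} (hw : w ∈ Deg k h n) (hw0 : w ≠ 0)
    (hv : Killed x y n v) : ∃ (N : ℕ), ∀ L, N ≤ L → ∃ (a b : List (Fin 2)) (c : k), c ≠ 0 ∧
    (a.length : ℤ) - b.length = n ∧ L ≤ b.length ∧
    yw y a * (w + v) * xw x b = c • (1 : R) := by
  obtain ⟨N1, hN1⟩ := deg_level hw
  obtain ⟨N2, hN2⟩ := hv
  set r := N1 + N2 + n.natAbs with hr
  have hlev := hN1 (r + n).toNat r (by omega) (by omega)
  obtain ⟨a, b, ha, hb, hne⟩ : ∃ a b : List (Fin 2), a.length = (r + n).toNat ∧ b.length = r ∧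
      yw y a * w * xw x b ≠ 0 := by
    by_contra hcon
    push Not at hcon
    apply hw0
    apply left_zero h (r + n).toNat
    intro a ha
    apply right_zero h r
    intro b hb
    exact hcon a b ha hb
  obtain ⟨c, hc⟩ := lev_coef h hlev ha hb
  refine ⟨N2, fun L hL => ⟨a ++ gw L, b ++ gw L, c, ?_, ?_, ?_, ?_⟩⟩
  · rintro rfl
    rw [zero_smul] at hc
    exact hne hc
  · rw [List.length_append, List.length_append, gw_length]
    push_cast
    omega
  · rw [List.length_append, gw_length]; omega
  · rw [mul_add, add_mul, hN2 L a b hL (by omega) (by omega), add_zero, yw_append, xw_append]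
    have : yw y (gw L) * yw y a * w * (xw x b * xw x (gw L)) =
        yw y (gw L) * (yw y a * w * xw x b) * xw x (gw L) := by noncomm_ring
    rw [this, hc, mul_smul_comm, smul_mul_assoc, mul_one, yx_self h]

lemma smul_deg_zero (h : Rels x y) (c : k) : c • (1 : R) ∈ Deg k h 0 :=
  Submodule.smul_mem _ _ (one_deg h)

/-- the main lemma -/
lemma deg_le (h : Rels x y) {n : ℤ} {w v : R} (hw : w ∈ Deg k h n) (hw0 : w ≠ 0)
    (hv : Killed x y n v) (B : AddSubgroup R)
    (hB : ∀ a ∈ Deg k h 0, ∀ u ∈ B, a * u ∈ B ∧ u * a ∈ B) (hmem : w + v ∈ B) :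
    ∀ z ∈ Deg k h n, z ∈ B := by
  intro z hz
  obtain ⟨N, hN⟩ := extract h hw hw0 hv
  obtain ⟨M, hM⟩ := deg_level hz
  obtain ⟨a, b, c, hc, hab, hL, hval⟩ := hN (N + M) (by omega)
  have hz' := hM a.length b.length hab (by omega)
  have key : ∀ z ∈ Lev k x y a.length b.length, z ∈ B := by
    intro z hz
    have gen : ∀ (e : k) (p q : List (Fin 2)), p.length = a.length → q.length = b.length →
        e • (xw x p * yw y q) ∈ B := by
      intro e p q hp hq
      have h1 : xw x p * yw y a ∈ Deg k h 0 :=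
        ⟨p.length, a.length, by omega, mem_lev rfl rfl⟩
      have h2 : xw x b * yw y q ∈ Deg k h 0 :=
        ⟨b.length, q.length, by omega, mem_lev rfl rfl⟩
      have h3 := (hB _ h2 _ (hB _ h1 _ hmem).1).2
      have h4 : xw x p * yw y a * (w + v) * (xw x b * yw y q) =
          xw x p * (yw y a * (w + v) * xw x b) * yw y q := by noncomm_ring
      rw [h4, hval, mul_smul_comm, smul_mul_assoc, mul_one] at h3
      have h5 := (hB _ (smul_deg_zero h (e * c⁻¹)) _ h3).1
      rwa [smul_mul_smul_comm, one_mul, mul_assoc, inv_mul_cancel₀ hc, mul_one] at h5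
    -- additive closure
    have : ∀ z ∈ Lev k x y a.length b.length, ∀ e : k, e • z ∈ B := by
      intro z hz
      induction hz using Submodule.span_induction with
      | mem z hz =>
        obtain ⟨p, q, hp, hq, rfl⟩ := hz
        intro e
        exact gen e p q hp hq
      | zero => intro e; rw [smul_zero]; exact B.zero_mem
      | add u v _ _ h1 h2 => intro e; rw [smul_add]; exact B.add_mem (h1 e) (h2 e)
      | smul e' u _ h1 => intro e; rw [smul_smul]; exact h1 _
    simpa using this z hz 1
  exact key z hz'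

/-- the killed elements form an additive subgroup -/
def KS (x y : Fin 2 → R) (n : ℤ) : AddSubgroup R where
  carrier := {v | Killed x y n v}
  zero_mem' := killed_zero n
  add_mem' := fun hv hw => killed_add hv hw
  neg_mem' := fun hv => killed_neg hv

lemma mem_KS {n : ℤ} {v : R} : v ∈ KS x y n ↔ Killed x y n v := Iff.rfl

/-- the grading, indexed by the multiplicative group `ℤ` -/
def gr (k : Type) [Field k] {R : Type} [Ring R] [Algebra k R] {x y : Fin 2 → R} (h : Rels x y)
    (g : Multiplicative ℤ) : AddSubgroup R :=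
  (Deg k h (Multiplicative.toAdd g)).toAddSubgroup

lemma mem_gr {h : Rels x y} {g : Multiplicative ℤ} {w : R} :
    w ∈ gr k h g ↔ w ∈ Deg k h (Multiplicative.toAdd g) := Iff.rfl

lemma zero_of_killed [Nontrivial R] {h : Rels x y} {n : ℤ} {w : R} (hw : w ∈ Deg k h n)
    (hk : Killed x y n w) : w = 0 := by
  by_contra hw0
  obtain ⟨N, hN⟩ := extract h hw hw0 (killed_neg hk)
  obtain ⟨a, b, c, hc, -, -, hval⟩ := hN N le_rfl
  rw [add_neg_cancel, mul_zero, zero_mul] at hval
  rcases smul_eq_zero.1 hval.symm with h1 | h1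
  · exact hc h1
  · exact one_ne_zero h1

lemma exists_ne [Nontrivial R] (h : Rels x y) (n : ℤ) : ∃ w ∈ Deg k h n, w ≠ 0 := by
  refine ⟨xw x (List.replicate n.toNat 0) * yw y (List.replicate (-n).toNat 0),
    ⟨n.toNat, (-n).toNat, by omega, mem_lev (by simp) (by simp)⟩, ?_⟩
  intro h0
  have h1 : yw y (List.replicate n.toNat 0) *
      (xw x (List.replicate n.toNat 0) * yw y (List.replicate (-n).toNat 0)) *
      xw x (List.replicate (-n).toNat 0) = 1 := by
    rw [← mul_assoc, yx_self h, one_mul, yx_self h]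
  rw [h0, mul_zero, zero_mul] at h1
  exact zero_ne_one h1

lemma gr_le_KS (h : Rels x y) {g g' : Multiplicative ℤ} (hg : g' ≠ g) :
    gr k h g' ≤ KS x y (Multiplicative.toAdd g) := by
  intro v hv
  exact killed_deg h (fun e => hg (Multiplicative.toAdd.injective e)) hv

lemma decomp (h : Rels x y) (htop : ⨆ n, Deg k h n = ⊤) (z : R) :
    ∃ f : ℤ →₀ R, (∀ n, f n ∈ Deg k h n) ∧ f.sum (fun _ w => w) = z := by
  have : z ∈ ⨆ n, Deg k h n := by rw [htop]; exact Submodule.mem_top
  exact (Submodule.mem_iSup_iff_exists_finsupp _ _).1 this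

lemma decomp_split (h : Rels x y) {z : R} {f : ℤ →₀ R} (hf : ∀ n, f n ∈ Deg k h n)
    (hz : f.sum (fun _ w => w) = z) (n : ℤ) : ∃ v, Killed x y n v ∧ z = f n + v := by
  classical
  refine ⟨(f.erase n).sum (fun _ w => w), ?_, ?_⟩
  · have : ∀ m ∈ (f.erase n).support, (f.erase n) m ∈ KS x y n := by
      intro m hm
      rw [Finsupp.support_erase, Finset.mem_erase] at hm
      rw [Finsupp.erase_ne hm.1]
      exact killed_deg h hm.1 (hf m)
    exact (KS x y n).sum_mem this
  · rw [← hz]
    exact (Finsupp.add_sum_erase' f n (fun _ w => w) (fun _ => rfl)).symm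

lemma strong [Nontrivial R] (h : Rels x y) (htop : ⨆ n, Deg k h n = ⊤) :
    IsStrongGrading (gr k h) where
  indep := by
    rw [iSupIndep_def]
    intro g
    rw [disjoint_iff_inf_le]
    intro w hw
    obtain ⟨h1, h2⟩ := AddSubgroup.mem_inf.1 hw
    have h3 : ⨆ (j) (_ : j ≠ g), gr k h j ≤ KS x y (Multiplicative.toAdd g) :=
      iSup₂_le fun j hj => gr_le_KS h hj
    exact (AddSubgroup.mem_bot).2 (zero_of_killed (mem_gr.1 h1) (h3 h2))
  top := by
    rw [eq_top_iff]
    intro z _
    obtain ⟨f, hf, rfl⟩ := decomp h htop z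
    refine AddSubgroup.sum_mem _ fun n _ => ?_
    exact AddSubgroup.mem_iSup_of_mem (Multiplicative.ofAdd n) (hf n)
  mul := by
    intro g g'
    apply le_antisymm
    · rw [AddSubgroup.closure_le]
      rintro _ ⟨w, hw, w', hw', rfl⟩
      exact deg_mul (mem_gr.1 hw) (mem_gr.1 hw')
    · intro z hz
      rw [mem_gr] at hz
      set n := Multiplicative.toAdd g with hn
      set m := Multiplicative.toAdd g' with hm
      have hz : z ∈ Deg k h (n + m) := hz
      obtain ⟨N, hN⟩ := deg_level hz
      set q := N + n.natAbs + m.natAbs with hq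
      have hz' := hN (q + (n + m)).toNat q (by omega) (by omega)
      have key : ∀ z ∈ Lev k x y (q + (n + m)).toNat q, ∀ e : k,
          e • z ∈ AddSubgroup.closure {z | ∃ x ∈ gr k h g, ∃ y ∈ gr k h g', z = x * y} := by
        intro z hz
        induction hz using Submodule.span_induction with
        | mem z hz =>
          obtain ⟨a, b, ha, hb, rfl⟩ := hz
          intro e
          apply AddSubgroup.subset_closure
          refine ⟨e • (xw x a * yw y (List.replicate (q + m).toNat 0)), ?_,
            xw x (List.replicate (q + m).toNat 0) * yw y b, ?_, ?_⟩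
          · exact Submodule.smul_mem _ _ ⟨a.length, (q + m).toNat, by omega,
              mem_lev rfl (by simp)⟩
          · exact ⟨(q + m).toNat, q, by omega, mem_lev (by simp) hb⟩
          · rw [smul_mul_assoc]
            congr 1
            calc xw x a * yw y b = xw x a * (yw y (List.replicate (q + m).toNat 0) *
                xw x (List.replicate (q + m).toNat 0)) * yw y b := by rw [yx_self h, mul_one]
              _ = _ := by noncomm_ring
        | zero => intro e; rw [smul_zero]; exact AddSubgroup.zero_mem _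
        | add u v _ _ h1 h2 => intro e; rw [smul_add]; exact AddSubgroup.add_mem _ (h1 e) (h2 e)
        | smul e' u _ h1 => intro e; rw [smul_smul]; exact h1 _
      simpa using key z hz' 1

lemma comp_le_KS (h : Rels x y) {S : Set (Multiplicative ℤ)} {g : Multiplicative ℤ} (hg : g ∉ S) :
    comp (gr k h) S ≤ KS x y (Multiplicative.toAdd g) :=
  iSup_le fun j => gr_le_KS h (fun e => hg (e ▸ j.2))

lemma comp_sub (h : Rels x y) (S : Set (Multiplicative ℤ)) :
    IsSubBimodule (gr k h) (comp (gr k h) S) := by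
  intro a ha v hv
  have ha' : a ∈ Deg k h 0 := ha
  constructor
  · induction hv using AddSubgroup.iSup_induction' with
    | hp j v hv =>
      refine AddSubgroup.mem_iSup_of_mem j ?_
      have := deg_mul ha' (mem_gr.1 hv)
      rwa [zero_add] at this
    | h1 => rw [mul_zero]; exact AddSubgroup.zero_mem _
    | hadd u v _ _ h1 h2 => rw [mul_add]; exact AddSubgroup.add_mem _ h1 h2
  · induction hv using AddSubgroup.iSup_induction' with
    | hp j v hv =>
      refine AddSubgroup.mem_iSup_of_mem j ?_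
      have := deg_mul (mem_gr.1 hv) ha'
      rwa [add_zero] at this
    | h1 => rw [zero_mul]; exact AddSubgroup.zero_mem _
    | hadd u v _ _ h1 h2 => rw [add_mul]; exact AddSubgroup.add_mem _ h1 h2

lemma iso_sub [Nontrivial R] (h : Rels x y) {S T : Set (Multiplicative ℤ)}
    (hi : BimoduleIso (gr k h) (comp (gr k h) S) (comp (gr k h) T)) : S ⊆ T := by
  obtain ⟨f, hf⟩ := hi
  intro g hg
  by_contra hgT
  obtain ⟨w, hw, hw0⟩ := exists_ne (k := k) h (Multiplicative.toAdd g)
  have hin : ∀ u ∈ gr k h g, u ∈ comp (gr k h) S := fun u hu =>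
    AddSubgroup.mem_iSup_of_mem (⟨g, hg⟩ : S) hu
  let B : AddSubgroup R :=
    { carrier := {z | ∃ u : comp (gr k h) S, (u : R) ∈ gr k h g ∧ z = u + f u}
      zero_mem' := ⟨0, AddSubgroup.zero_mem _, by simp⟩
      add_mem' := by
        rintro _ _ ⟨u, hu, rfl⟩ ⟨v, hv, rfl⟩
        refine ⟨u + v, AddSubgroup.add_mem _ hu hv, ?_⟩
        rw [map_add, AddSubgroup.coe_add, AddSubgroup.coe_add]
        abel
      neg_mem' := by
        rintro _ ⟨u, hu, rfl⟩
        refine ⟨-u, AddSubgroup.neg_mem _ hu, ?_⟩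
        rw [map_neg, AddSubgroup.coe_neg, AddSubgroup.coe_neg]
        abel }
  have hB : ∀ a ∈ Deg k h 0, ∀ z ∈ B, a * z ∈ B ∧ z * a ∈ B := by
    rintro a ha _ ⟨u, hu, rfl⟩
    have ha' : a ∈ gr k h 1 := ha
    have hs := comp_sub (k := k) h S a ha' u u.2
    constructor
    · refine ⟨⟨a * u, hs.1⟩, ?_, ?_⟩
      · have := deg_mul ha (mem_gr.1 hu)
        rwa [zero_add] at this
      · rw [mul_add, (hf a ha' u ⟨a * u, hs.1⟩).1 rfl]
    · refine ⟨⟨u * a, hs.2⟩, ?_, ?_⟩
      · have := deg_mul (mem_gr.1 hu) ha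
        rwa [add_zero] at this
      · rw [add_mul, (hf a ha' u ⟨u * a, hs.2⟩).2 rfl]
  have hkill : ∀ u : comp (gr k h) S, Killed x y (Multiplicative.toAdd g) (f u : R) := fun u =>
    comp_le_KS h hgT (f u).2
  have hmem : w + (f ⟨w, hin w hw⟩ : R) ∈ B := ⟨⟨w, hin w hw⟩, hw, rfl⟩
  obtain ⟨u, hu, hwu⟩ := deg_le h hw hw0 (hkill _) B hB hmem w hw
  have h1 : (f u : R) = w - u := by rw [hwu]; abel
  have h2 : (f u : R) = 0 := by
    apply zero_of_killed (k := k) (h := h) _ (hkill u)
    rw [h1]
    exact Submodule.sub_mem _ hw hu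
  have h3 : u = 0 := by
    apply f.injective
    rw [map_zero]
    exact Subtype.ext h2
  apply hw0
  rw [hwu, h2, h3]
  simp

lemma BimoduleIso.symm' {G : Type} [Group G] {R : Type} [Ring R] {𝒜 : G → AddSubgroup R}
    {B C : AddSubgroup R} (hB : IsSubBimodule 𝒜 B)
    (hi : BimoduleIso 𝒜 B C) : BimoduleIso 𝒜 C B := by
  obtain ⟨f, hf⟩ := hi
  refine ⟨f.symm, fun a ha v w => ⟨fun hw => ?_, fun hw => ?_⟩⟩
  · have h1 := (hf a ha (f.symm v) ⟨a * f.symm v, (hB a ha _ (f.symm v).2).1⟩).1 rfl
    rw [f.apply_symm_apply, ← hw] at h1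
    have h2 : f ⟨a * f.symm v, (hB a ha _ (f.symm v).2).1⟩ = w := Subtype.ext h1
    rw [← h2, f.symm_apply_apply]
  · have h1 := (hf a ha (f.symm v) ⟨f.symm v * a, (hB a ha _ (f.symm v).2).2⟩).2 rfl
    rw [f.apply_symm_apply, ← hw] at h1
    have h2 : f ⟨f.symm v * a, (hB a ha _ (f.symm v).2).2⟩ = w := Subtype.ext h1
    rw [← h2, f.symm_apply_apply]

lemma controlled [Nontrivial R] (h : Rels x y) (htop : ⨆ n, Deg k h n = ⊤) :
    IsControlled (gr k h) := by
  refine ⟨⟨fun S _ => comp_sub h S, ?_, ?_⟩, ?_⟩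
  · -- injectivity
    have half : ∀ S T : Set (Multiplicative ℤ), comp (gr k h) S = comp (gr k h) T → S ⊆ T := by
      intro S T hST g hg
      by_contra hgT
      obtain ⟨w, hw, hw0⟩ := exists_ne (k := k) h (Multiplicative.toAdd g)
      have h1 : w ∈ comp (gr k h) S := AddSubgroup.mem_iSup_of_mem (⟨g, hg⟩ : S) hw
      rw [hST] at h1
      exact hw0 (zero_of_killed hw (comp_le_KS h hgT h1))
    intro S _ T _ hST
    exact Set.Subset.antisymm (half S T hST) (half T S hST.symm)
  · -- surjectivity
    intro B hB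
    refine ⟨{g | gr k h g ≤ B}, Set.mem_univ _, ?_⟩
    apply le_antisymm
    · exact iSup_le fun j => j.2
    · intro z hz
      obtain ⟨f, hf, hsum⟩ := decomp h htop z
      rw [← hsum]
      refine AddSubgroup.sum_mem _ fun n hn => ?_
      have hfn : f n ≠ 0 := Finsupp.mem_support_iff.1 hn
      obtain ⟨v, hv, hzv⟩ := decomp_split h hf hsum n
      have hle : gr k h (Multiplicative.ofAdd n) ≤ B := by
        intro u hu
        exact deg_le h (hf n) hfn hv B (fun a ha u hu => hB a ha u hu) (hzv ▸ hz) u hu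
      exact AddSubgroup.mem_iSup_of_mem
        (⟨Multiplicative.ofAdd n, hle⟩ : {g | gr k h g ≤ B}) (hf n)
  · intro S T hi
    exact Set.Subset.antisymm (iso_sub h hi) (iso_sub h (BimoduleIso.symm' (comp_sub h S) hi))

lemma lev_zero_le (p : ℕ) : Lev k x y p 0 ≤
    Submodule.span k (Set.range fun f : Fin p → Fin 2 => xw x (List.ofFn f)) := by
  apply Submodule.span_le.2
  rintro _ ⟨a, b, ha, hb, rfl⟩
  subst ha
  rw [List.length_eq_zero_iff.1 hb]
  apply Submodule.subset_span
  exact ⟨fun i => a[i], by simp [yw]⟩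

lemma lev_zero_ge (p : ℕ) :
    Submodule.span k (Set.range fun f : Fin p → Fin 2 => xw x (List.ofFn f)) ≤
      Lev k x y p 0 := by
  apply Submodule.span_le.2
  rintro _ ⟨f, rfl⟩
  have := mem_lev (k := k) (x := x) (y := y) (a := List.ofFn f) (b := []) (p := p) (r := 0)
    (by simp) rfl
  simpa [yw] using this

lemma lin_indep [Nontrivial R] (h : Rels x y) (p : ℕ) :
    LinearIndependent k (fun f : Fin p → Fin 2 => xw x (List.ofFn f)) := by
  rw [Fintype.linearIndependent_iff]
  intro c hc f
  have h1 : yw y (List.ofFn f) * ∑ g, c g • xw x (List.ofFn g) = c f • 1 := by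
    rw [Finset.mul_sum, Finset.sum_eq_single f]
    · rw [mul_smul_comm, yx_self h]
    · intro g _ hg
      rw [mul_smul_comm, yx_len h _ _ (by simp), if_neg, smul_zero]
      intro e
      exact hg (List.ofFn_injective e).symm
    · intro h0; exact absurd (Finset.mem_univ _) h0
  rw [hc, mul_zero] at h1
  rcases smul_eq_zero.1 h1.symm with h2 | h2
  · exact h2
  · exact absurd h2 one_ne_zero

lemma finrank_lev [Nontrivial R] (h : Rels x y) (p : ℕ) :
    Module.finrank k (Lev k x y p 0) = 2 ^ p := by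
  rw [le_antisymm (lev_zero_le p) (lev_zero_ge p), finrank_span_eq_card (lin_indep h p)]
  simp

lemma not_crossed [Nontrivial R] (h : Rels x y) (htop : ⨆ n, Deg k h n = ⊤) :
    ¬ IsCrossedProduct (gr k h) := by
  intro hc
  obtain ⟨u, hu⟩ := hc (Multiplicative.ofAdd 1)
  have hu1 : (u : R) ∈ Deg k h 1 := hu
  obtain ⟨f, hf, hsum⟩ := decomp h htop (↑u⁻¹ : R)
  obtain ⟨v, hv, hzv⟩ := decomp_split h hf hsum (-1)
  -- the component of degree `-1` is the inverse
  have h1 : (u : R) * f (-1) = 1 := by
    have h2 : (u : R) * f (-1) - 1 = -((u : R) * v) := by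
      have : (u : R) * (↑u⁻¹ : R) = 1 := u.mul_inv
      rw [hzv, mul_add] at this
      rw [← this]
      abel
    have h3 : (u : R) * f (-1) - 1 ∈ Deg k h 0 := by
      refine Submodule.sub_mem _ ?_ (one_deg h)
      have := deg_mul hu1 (hf (-1))
      simpa using this
    have h4 : Killed x y 0 ((u : R) * f (-1) - 1) := by
      have h5 : (u : R) * f (-1) - 1 = -((f.erase (-1)).sum fun _ w => (u : R) * w) := by
        rw [h2]
        congr 1
        have h6 : v = (f.erase (-1)).sum fun _ w => w := by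
          have := Finsupp.add_sum_erase' f (-1) (fun _ w => w) (fun _ => rfl)
          rw [hsum, hzv] at this
          exact (add_left_cancel this).symm
        rw [h6, Finsupp.mul_sum]
      rw [h5]
      apply killed_neg
      have : ∀ m ∈ (f.erase (-1)).support, (u : R) * (f.erase (-1)) m ∈ KS x y 0 := by
        intro m hm
        rw [Finsupp.support_erase, Finset.mem_erase] at hm
        rw [Finsupp.erase_ne hm.1]
        exact killed_deg h (fun e => hm.1 (by omega)) (deg_mul hu1 (hf m))
      exact (KS x y 0).sum_mem this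
    exact sub_eq_zero.1 (zero_of_killed h3 h4)
  obtain ⟨N, hN⟩ := deg_level hu1
  obtain ⟨M, hM⟩ := deg_level (hf (-1))
  set r := N + M with hr
  have hu2 := hN (r + 1) r (by push_cast; ring) (by omega)
  have hf2 := hM r (r + 1) (by push_cast; ring) (by omega)
  -- left multiplication by `u` maps `Lev r 0` onto `Lev (r+1) 0`
  let φ : Lev k x y r 0 →ₗ[k] Lev k x y (r + 1) 0 :=
    { toFun := fun w => ⟨(u : R) * w, lev_mul h hu2 w.2⟩
      map_add' := fun w w' => Subtype.ext (by simp [mul_add])
      map_smul' := fun c w => Subtype.ext (by simp) }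
  have hφ : Function.Surjective φ := by
    intro w
    refine ⟨⟨f (-1) * w, lev_mul h hf2 w.2⟩, Subtype.ext ?_⟩
    show (u : R) * (f (-1) * w) = w
    rw [← mul_assoc, h1, one_mul]
  have : Module.Finite k (Lev k x y r 0) := by
    apply Module.finite_of_finrank_pos
    rw [finrank_lev h]
    positivity
  have := LinearMap.finrank_le_finrank_of_surjective hφ
  rw [finrank_lev h, finrank_lev h, pow_succ] at this
  have hpos : 0 < 2 ^ r := by positivity
  omega

end leavitt

section model

/-- the operators `x_i` on sequences -/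
def xop (i : Fin 2) : Module.End ℚ (ℕ → ℚ) where
  toFun f m := if m % 2 = i.val then f (m / 2) else 0
  map_add' f g := by
    ext m
    simp only [Pi.add_apply]
    split_ifs <;> simp
  map_smul' c f := by
    ext m
    simp only [Pi.smul_apply, RingHom.id_apply]
    split_ifs <;> simp

/-- the operators `y_i` on sequences -/
def yop (i : Fin 2) : Module.End ℚ (ℕ → ℚ) where
  toFun f m := f (2 * m + i.val)
  map_add' _ _ := rfl
  map_smul' _ _ := rfl

/-- the Leavitt algebra, as an algebra of operators -/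
def LA : Subalgebra ℚ (Module.End ℚ (ℕ → ℚ)) :=
  Algebra.adjoin ℚ (Set.range xop ∪ Set.range yop)

/-- generators -/
def X (i : Fin 2) : LA := ⟨xop i, Algebra.subset_adjoin (Or.inl ⟨i, rfl⟩)⟩

/-- generators -/
def Y (i : Fin 2) : LA := ⟨yop i, Algebra.subset_adjoin (Or.inr ⟨i, rfl⟩)⟩

lemma rels : Rels X Y where
  yx := by
    intro i j
    apply Subtype.ext
    show yop i * xop j = ((if i = j then 1 else 0 : LA) : Module.End ℚ (ℕ → ℚ))
    ext f m
    have h1 : (yop i * xop j) f m =
      if (2 * m + i.val) % 2 = j.val then f ((2 * m + i.val) / 2) else 0 := rfl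
    rw [h1]
    have h2 : (2 * m + i.val) % 2 = i.val := by have := i.2; omega
    have h3 : (2 * m + i.val) / 2 = m := by have := i.2; omega
    rw [h2, h3]
    split_ifs with h4 h5 h5
    · rfl
    · exact absurd (Fin.ext h4) h5
    · exact absurd (congrArg Fin.val h5) h4
    · rfl
  sum := by
    apply Subtype.ext
    show xop 0 * yop 0 + xop 1 * yop 1 = 1
    ext f m
    have h1 : (xop 0 * yop 0 + xop 1 * yop 1) f m =
      (if m % 2 = 0 then f (2 * (m / 2) + 0) else 0) +
      (if m % 2 = 1 then f (2 * (m / 2) + 1) else 0) := rfl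
    rw [h1]
    show _ = f m
    rcases Nat.mod_two_eq_zero_or_one m with h2 | h2
    · rw [if_pos h2, if_neg (by omega), add_zero]
      congr 1; omega
    · rw [if_neg (by omega), if_pos h2, zero_add]
      congr 1; omega

lemma iSup_mul {a b : LA} (ha : a ∈ ⨆ n, Deg ℚ rels n) (hb : b ∈ ⨆ n, Deg ℚ rels n) :
    a * b ∈ ⨆ n, Deg ℚ rels n := by
  induction ha using Submodule.iSup_induction' with
  | mem n a ha =>
    induction hb using Submodule.iSup_induction' with
    | mem m b hb => exact Submodule.mem_iSup_of_mem (n + m) (deg_mul ha hb)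
    | zero => simp
    | add u v _ _ h1 h2 => rw [mul_add]; exact Submodule.add_mem _ h1 h2
  | zero => simp
  | add u v _ _ h1 h2 => rw [add_mul]; exact Submodule.add_mem _ h1 h2

lemma model_top : ⨆ n, Deg ℚ rels n = ⊤ := by
  rw [eq_top_iff]
  rintro ⟨z, hz⟩ _
  have hz' : z ∈ Algebra.adjoin ℚ (Set.range xop ∪ Set.range yop) := hz
  induction hz' using Algebra.adjoin_induction with
  | mem z hz' =>
    rcases hz' with ⟨i, rfl⟩ | ⟨i, rfl⟩
    · refine Submodule.mem_iSup_of_mem 1 ⟨1, 0, by simp, ?_⟩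
      have := mem_lev (k := ℚ) (x := X) (y := Y) (a := [i]) (b := []) (p := 1) (r := 0) rfl rfl
      rw [show (⟨xop i, hz⟩ : LA) = X i from rfl]
      simpa [xw, yw] using this
    · refine Submodule.mem_iSup_of_mem (-1) ⟨0, 1, by simp, ?_⟩
      have := mem_lev (k := ℚ) (x := X) (y := Y) (a := []) (b := [i]) (p := 0) (r := 1) rfl rfl
      rw [show (⟨yop i, hz⟩ : LA) = Y i from rfl]
      simpa [xw, yw] using this
  | algebraMap c =>
    refine Submodule.mem_iSup_of_mem 0 ?_
    have := smul_deg_zero (k := ℚ) rels c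
    rw [← Algebra.algebraMap_eq_smul_one] at this
    exact this
  | add u v hu hv h1 h2 =>
    exact Submodule.add_mem _ (h1 hu trivial) (h2 hv trivial)
  | mul u v hu hv h1 h2 =>
    exact iSup_mul (h1 hu trivial) (h2 hv trivial)

end model

/-- **Q1 is disproved.** There are a group `G` and a strongly `G`-graded, `G`-controlled ring `R`
which is not a `G`-crossed product. -/
theorem result : ∃ (G : Type) (_ : Group G) (R : Type) (_ : Ring R) (𝒜 : G → AddSubgroup R),
    IsStrongGrading 𝒜 ∧ IsControlled 𝒜 ∧ ¬ IsCrossedProduct 𝒜 :=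
  ⟨Multiplicative ℤ, inferInstance, LA, inferInstance, gr ℚ rels, strong rels model_top,
    controlled rels model_top, not_crossed rels model_top⟩

end Pool.Agent.Results.MP_26bbbf_al.LeavittControlled
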